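import Pool.Agent.Helper73.Dil.Pure2

open Topology Set Filter MeasureTheory Metric

namespace Pool.Agent.Helper41.Dil

open Pool.Agent.Helper73.Dil

universe u

section

variable {H : Type u} [NormedAddCommGroup H] [InnerProductSpace ℂ H]

theorem conj_norm (J : Conj H) (f : H) : ‖J.c f‖ = ‖f‖ := by
  have h := J.inner f f
  have h1 : RCLike.re (inner ℂ (J.c f) (J.c f)) = RCLike.re (inner ℂ f f) := by rw [h]
  rw [← norm_sq_eq_re_inner (𝕜 := ℂ), ← norm_sq_eq_re_inner (𝕜 := ℂ)] at h1
  exact (sq_eq_sq₀ (norm_nonneg _) (norm_nonneg _)).1 h1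

/-- the conjugation as a real linear map -/
noncomputable def JL (J : Conj H) : H →L[ℝ] H :=
  LinearMap.mkContinuous
    { toFun := J.c
      map_add' := J.add
      map_smul' := by
        intro r f
        have h := J.smul (r : ℂ) f
        rw [Complex.conj_ofReal] at h
        simpa using h } 1 (by
      intro f
      simp [conj_norm J f])

theorem JL_apply (J : Conj H) (f : H) : JL J f = J.c f := rfl

theorem isOpen_UH : IsOpen UH := isOpen_lt continuous_const Complex.continuous_im

theorem dir_zero (J : Conj H) {c : ℂ → H} (hc : DifferentiableOn ℂ c UH)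
    (h : ∀ t ∈ UH, ∀ t' ∈ UH, c t + J.c (c t) = c t' + J.c (c t')) {t : ℂ} (ht : t ∈ UH) (v : ℂ) :
    v • deriv c t + J.c (v • deriv c t) = 0 := by
  have h1 : HasDerivAt c (deriv c t) t := (hc.differentiableAt (isOpen_UH.mem_nhds ht)).hasDerivAt
  have h2 : HasDerivAt (fun s : ℝ => t + (s : ℂ) * v) v 0 := by
    have h3 : HasDerivAt (fun s : ℝ => (s : ℂ)) 1 0 := Complex.ofRealCLM.hasDerivAt
    simpa using (h3.mul_const v).const_add t
  have h4 : HasDerivAt (fun s : ℝ => c (t + (s : ℂ) * v)) (v • deriv c t) 0 := by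
    have h5 : HasDerivAt c (deriv c t) ((fun s : ℝ => t + (s : ℂ) * v) 0) := by simpa using h1
    exact h5.scomp (0 : ℝ) h2
  have h6 : HasDerivAt (fun s : ℝ => J.c (c (t + (s : ℂ) * v))) (J.c (v • deriv c t)) 0 := by
    have := (JL J).hasFDerivAt.comp_hasDerivAt (0 : ℝ) h4
    simpa [JL_apply, Function.comp_def] using this
  have h7 := h4.add h6
  have h8 : (fun s : ℝ => c (t + (s : ℂ) * v) + J.c (c (t + (s : ℂ) * v))) =ᶠ[𝓝 0]
      fun _ => c t + J.c (c t) := by
    have h9 : ContinuousAt (fun s : ℝ => t + (s : ℂ) * v) 0 := h2.continuousAt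
    have h10 : ∀ᶠ s : ℝ in 𝓝 0, t + (s : ℂ) * v ∈ UH := by
      apply h9.eventually_mem
      simpa using isOpen_UH.mem_nhds ht
    filter_upwards [h10] with s hs
    exact h _ hs _ ht
  have h11 : HasDerivAt (fun s : ℝ => c (t + (s : ℂ) * v) + J.c (c (t + (s : ℂ) * v))) 0 0 :=
    (hasDerivAt_const (0 : ℝ) (c t + J.c (c t))).congr_of_eventuallyEq h8
  exact h7.unique h11

end

theorem st_FINC : ST_FINC := by
  intro H _ _ _ J c hc h t ht
  have hd : ∀ s ∈ UH, deriv c s = 0 := by
    intro s hs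
    have h1 := dir_zero J hc (fun t ht t' ht' => (h t ht t' ht').1) hs 1
    have h2 := dir_zero J hc (fun t ht t' ht' => (h t ht t' ht').1) hs Complex.I
    rw [one_smul] at h1
    rw [J.smul, Complex.conj_I, neg_smul, ← sub_eq_add_neg, ← smul_sub] at h2
    have h3 : deriv c s - J.c (deriv c s) = 0 := (smul_eq_zero.1 h2).resolve_left Complex.I_ne_zero
    have h4 : (2 : ℂ) • deriv c s = 0 := by
      rw [two_smul]
      have : deriv c s + deriv c s = (deriv c s + J.c (deriv c s)) + (deriv c s - J.c (deriv c s)) := by abel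
      rw [this, h1, h3, add_zero]
    exact (smul_eq_zero.1 h4).resolve_left (by norm_num)
  have hconv : Convex ℝ UH := convex_halfSpace_im_gt 0
  have hconst : ∀ s ∈ UH, ∀ s' ∈ UH, c s = c s' := by
    intro s hs s' hs'
    refine hconv.is_const_of_fderivWithin_eq_zero (𝕜 := ℂ) hc ?_ hs hs'
    intro x hx
    rw [fderivWithin_of_isOpen isOpen_UH hx]
    ext
    simp [hd x hx]
  have hI : Complex.I ∈ UH := by simp [UH]
  have h2I : 2 * Complex.I ∈ UH := by simp [UH]
  have h1I : 1 + Complex.I ∈ UH := by simp [UH]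
  have e1 := (h _ hI _ h2I).2
  have e2 := (h _ hI _ h1I).2
  rw [hconst _ h2I _ hI] at e1
  rw [hconst _ h1I _ hI] at e2
  rw [hconst t ht _ hI]
  generalize c Complex.I = x at e1 e2 ⊢
  simp only [J.smul, map_mul, map_add, map_one, Complex.conj_I, map_ofNat] at e1 e2
  -- x = J x
  have e3 : Complex.I • (x - J.c x) = 0 := by
    have : Complex.I • (x - J.c x) = ((2 * Complex.I) • x + (2 * -Complex.I) • J.c x) - (Complex.I • x + (-Complex.I) • J.c x) := by
      module
    rw [this, ← e1, sub_self]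
  have e4 : x - J.c x = 0 := (smul_eq_zero.1 e3).resolve_left Complex.I_ne_zero
  have e5 : J.c x = x := (sub_eq_zero.1 e4).symm
  rw [e5] at e2
  have e6 : (2 : ℂ) • x = 0 := by
    have : (2 : ℂ) • x = ((1 + Complex.I) • x + (1 + -Complex.I) • x) - (Complex.I • x + (-Complex.I) • x) := by
      module
    rw [this, ← e2, sub_self]
  exact (smul_eq_zero.1 e6).resolve_left (by norm_num)

end Pool.Agent.Helper41.Dil
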