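import Pool.Agent.Helper73.Dil.Pure

open Topology Set Filter MeasureTheory Metric

namespace Pool.Agent.Helper41.Dil

open Pool.Agent.Helper73.Dil

theorem st_LAT (h1 : ST_LATINT) (h2 : ST_GROW) : ST_LAT := by
  intro Γ μ D hΓ hμ hr hD hfin
  obtain ⟨C, hC, H⟩ := h2 Γ μ D hΓ hμ hr hD hfin
  have h3 := h1 Γ μ D hΓ hμ hr hD hfin
  have h4 : ∀ g : G, (⨅ γ : Γ, ENNReal.ofReal (hs (g * γ.1))) ≤ C * (1 + lam Γ g) := by
    intro g
    obtain ⟨γ, hγ, hg⟩ := H g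
    exact le_trans (iInf_le _ (⟨γ, hγ⟩ : Γ)) hg
  refine lt_of_le_of_lt (lintegral_mono h4) ?_
  rw [lintegral_const_mul' _ _ hC.ne, lintegral_add_left measurable_const, setLIntegral_const, one_mul]
  exact ENNReal.mul_lt_top hC (ENNReal.add_lt_top.2 ⟨hfin, h3⟩)

end Pool.Agent.Helper41.Dil
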